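import Pool.Agent.MP_3ee8cb_gt.DN.Spec

/-! A global orthonormal frame with the regularity of the metric. -/

namespace Pool.Agent.MP_3ee8cb_gt.DN.FR

variable [Dim]

open CR (Met Riem)
open scoped RealInnerProductSpace

noncomputable section

variable {h : Met dm}

/-- The standard basis. -/
def e (i : Fin dm) : V := EuclideanSpace.single i 1

/-- The first `j` vectors of the frame. -/
theorem gs (r : Riem h) {N : WithTop ℕ∞} (s : ContDiff ℝ N h) (j : ℕ) (hj : j ≤ dm) :
    ∃ u : Fin dm → V → V, (∀ i, ContDiff ℝ N (u i)) ∧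
      (∀ y (i i' : Fin dm), i.1 < j → i'.1 < j →
        h y (u i y) (u i' y) = if i = i' then 1 else 0) ∧
      ∀ y (i l : Fin dm), i.1 < j → j ≤ l.1 → u i y l = 0 := by
  induction j with
  | zero => exact ⟨fun _ _ => 0, fun _ => contDiff_const, by simp, by simp⟩
  | succ j ih =>
    obtain ⟨u, c, o, z⟩ := ih (by omega)
    let J : Fin dm := ⟨j, hj⟩
    let T : Finset (Fin dm) := Finset.univ.filter fun i => i.1 < j
    have hT : ∀ i, i ∈ T ↔ i.1 < j := fun i => by simp [T]
    let w : V → V := fun y => e J - ∑ i ∈ T, h y (e J) (u i y) • u i y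
    have cw : ContDiff ℝ N w := contDiff_const.sub (ContDiff.sum fun i _ =>
      ((s.clm_apply contDiff_const).clm_apply (c i)).smul (c i))
    have wl : ∀ y (l : Fin dm), j ≤ l.1 → w y l = e J l := fun y l hl => by
      have h0 : (∑ i ∈ T, h y (e J) (u i y) • u i y) l = 0 := by
        rw [WithLp.ofLp_sum, Finset.sum_apply]
        exact Finset.sum_eq_zero fun i hi => by simp [z y i l ((hT i).1 hi) hl]
      simp only [w, PiLp.sub_apply, h0, sub_zero]
    have w0 : ∀ y, w y ≠ 0 := fun y H => by
      have := wl y J le_rfl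
      rw [H] at this
      simp [e] at this
    have wo : ∀ y (i : Fin dm), i.1 < j → h y (w y) (u i y) = 0 := fun y i hi => by
      have h1 : ∑ l ∈ T, h y (e J) (u l y) * h y (u l y) (u i y) = h y (e J) (u i y) := by
        rw [Finset.sum_eq_single i]
        · rw [o y i i hi hi, if_pos rfl, mul_one]
        · intro l hl hne
          rw [o y l i ((hT l).1 hl) hi, if_neg hne, mul_zero]
        · exact fun H => absurd ((hT i).2 hi) H
      simp only [w, map_sub, map_sum, map_smul, ContinuousLinearMap.sub_apply,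
        ContinuousLinearMap.sum_apply, ContinuousLinearMap.smul_apply, smul_eq_mul, h1, sub_self]
    let v : V → V := fun y => (√(h y (w y) (w y)))⁻¹ • w y
    have cv : ContDiff ℝ N v :=
      ((((s.clm_apply cw).clm_apply cw).sqrt fun y => (r.pos y _ (w0 y)).ne').inv
        fun y => (Real.sqrt_pos.2 (r.pos y _ (w0 y))).ne').smul cw
    have v1 : ∀ y, h y (v y) (v y) = 1 := fun y => by
      have hp := r.pos y _ (w0 y)
      have h3 := (Real.sqrt_pos.2 hp).ne'
      simp only [v, map_smul, ContinuousLinearMap.smul_apply, smul_eq_mul]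
      field_simp
      rw [Real.sq_sqrt hp.le]
    have vo : ∀ y (i : Fin dm), i.1 < j → h y (v y) (u i y) = 0 := fun y i hi => by
      simp only [v, map_smul, ContinuousLinearMap.smul_apply, smul_eq_mul, wo y i hi, mul_zero]
    have lt : ∀ i : Fin dm, i.1 < j + 1 → i ≠ J → i.1 < j := fun i hi hne =>
      lt_of_le_of_ne (Nat.lt_succ_iff.1 hi) fun H => hne (Fin.ext H)
    refine ⟨Function.update u J v, fun i => ?_, fun y i i' hi hi' => ?_, fun y i l hi hl => ?_⟩
    · by_cases H : i = J
      · rw [H, Function.update_self]; exact cv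
      · rw [Function.update_of_ne H]; exact c i
    · by_cases H : i = J <;> by_cases H' : i' = J
      · rw [H, H', Function.update_self, if_pos rfl, v1]
      · rw [H, Function.update_self, Function.update_of_ne H', if_neg (Ne.symm H'),
          vo y i' (lt i' hi' H')]
      · rw [H', Function.update_self, Function.update_of_ne H, if_neg H, r.symm,
          vo y i (lt i hi H)]
      · rw [Function.update_of_ne H, Function.update_of_ne H', o y i i' (lt i hi H) (lt i' hi' H')]
    · by_cases H : i = J
      · have hne : l ≠ J := fun E => by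
          rw [E] at hl
          exact Nat.not_succ_le_self j hl
        rw [H, Function.update_self]
        simp only [v, PiLp.smul_apply, wl y l (by omega), smul_eq_mul]
        simp [e, hne]
      · rw [Function.update_of_ne H]
        exact z y i l (lt i hi H) (by omega)

theorem frameN (r : Riem h) {N : WithTop ℕ∞} (s : ContDiff ℝ N h) :
    ∃ R S : V → V →L[ℝ] V, ContDiff ℝ N R ∧ ContDiff ℝ N S ∧
    (∀ y a, S y (R y a) = a) ∧ (∀ y u, R y (S y u) = u) ∧
    ∀ y a b, h y (R y a) (R y b) = ⟪a, b⟫ := by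
  obtain ⟨uu, c, o, -⟩ := gs r s dm le_rfl
  have orth : ∀ y i j, h y (uu i y) (uu j y) = if i = j then 1 else 0 := fun y i j =>
    o y i j i.2 j.2
  let R : V → V →L[ℝ] V := fun y => ∑ i, (EuclideanSpace.proj i : V →L[ℝ] ℝ).smulRight (uu i y)
  let S : V → V →L[ℝ] V := fun y => ∑ i, (h y (uu i y)).smulRight (e i)
  have hR : ∀ y a, R y a = ∑ i, a i • uu i y := fun y a => by simp [R]
  have hS : ∀ y u, S y u = ∑ i, h y (uu i y) u • e i := fun y u => by simp [S]
  have SR : ∀ y a, S y (R y a) = a := fun y a => by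
    rw [hS, hR]
    ext j
    simp [orth, e, Pi.single_apply]
  refine ⟨R, S, ?_, ?_, SR, fun y u => ?_, fun y a b => ?_⟩
  · exact ContDiff.sum fun i _ => contDiff_const.smulRight (c i)
  · exact ContDiff.sum fun i _ => (s.clm_apply (c i)).smulRight contDiff_const
  · have h1 : (S y : V →ₗ[ℝ] V) * (R y : V →ₗ[ℝ] V) = 1 := LinearMap.ext (SR y)
    exact LinearMap.congr_fun (mul_eq_one_comm.1 h1) u
  · rw [hR, hR]
    simp [orth, PiLp.inner_apply]

theorem frame (r : Riem h) : ∃ R S : V → V →L[ℝ] V, ContDiff ℝ 2 R ∧ ContDiff ℝ 2 S ∧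
    (∀ y a, S y (R y a) = a) ∧ (∀ y u, R y (S y u) = u) ∧
    ∀ y a b, h y (R y a) (R y b) = ⟪a, b⟫ := frameN r r.smooth

end

end Pool.Agent.MP_3ee8cb_gt.DN.FR
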