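import Pool.Agent.MP_3ee8cb_gt.CR.Defs

/-! A global orthonormal frame in every dimension, as smooth as the metric. -/

namespace Pool.Agent.MP_3ee8cb_gt.GS

open CR (E Met Riem)
open scoped RealInnerProductSpace

variable {n : ℕ} {h : Met n}

theorem step (r : Riem h) {k : ℕ} (s : ContDiff ℝ k h) (j : ℕ) (hj : j ≤ n) :
    ∃ u : ℕ → E n → E n, (∀ i, ContDiff ℝ k (u i)) ∧
      (∀ y i i', i < j → i' < j → h y (u i y) (u i' y) = if i = i' then 1 else 0) ∧
      ∀ y i (l : Fin n), j ≤ l → u i y l = 0 := by
  induction j with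
  | zero => exact ⟨fun _ _ => 0, fun _ => contDiff_const, fun _ _ _ hi => absurd hi (by simp),
      fun _ _ _ _ => rfl⟩
  | succ j ih =>
    obtain ⟨u, u1, u2, u3⟩ := ih (by omega)
    let e : E n := EuclideanSpace.single (⟨j, hj⟩ : Fin n) 1
    let w : E n → E n := fun y => e - ∑ i ∈ Finset.range j, h y e (u i y) • u i y
    have wc : ContDiff ℝ k w := contDiff_const.sub (ContDiff.sum fun i _ =>
      ((s.clm_apply contDiff_const).clm_apply (u1 i)).smul (u1 i))
    have wl : ∀ y (l : Fin n), j ≤ l → w y l = e l := fun y l hl => by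
      simp [w, u3 y _ l hl]
    have w0 : ∀ y, w y ≠ 0 := fun y H => by
      have := wl y ⟨j, hj⟩ le_rfl
      rw [H] at this
      simp [e] at this
    have wo : ∀ y i, i < j → h y (w y) (u i y) = 0 := fun y i hi => by
      simp only [w, map_sub, map_sum, map_smul, ContinuousLinearMap.sub_apply,
        ContinuousLinearMap.sum_apply, ContinuousLinearMap.smul_apply, smul_eq_mul]
      rw [Finset.sum_eq_single i]
      · rw [u2 y i i hi hi, if_pos rfl, mul_one, sub_self]
      · intro b hb hbi
        rw [u2 y b i (Finset.mem_range.1 hb) hi, if_neg hbi, mul_zero]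
      · intro hi'
        exact absurd (Finset.mem_range.2 hi) hi'
    let v : E n → E n := fun y => (√(h y (w y) (w y)))⁻¹ • w y
    have vc : ContDiff ℝ k v :=
      ((((s.clm_apply wc).clm_apply wc).sqrt fun y => (r.pos y _ (w0 y)).ne').inv
        fun y => (Real.sqrt_pos.2 (r.pos y _ (w0 y))).ne').smul wc
    have v1 : ∀ y, h y (v y) (v y) = 1 := fun y => by
      have hp := r.pos y _ (w0 y)
      have h3 := (Real.sqrt_pos.2 hp).ne'
      simp only [v, map_smul, ContinuousLinearMap.smul_apply, smul_eq_mul]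
      field_simp
      rw [Real.sq_sqrt hp.le]
    have vo : ∀ y i, i < j → h y (v y) (u i y) = 0 := fun y i hi => by
      simp only [v, map_smul, ContinuousLinearMap.smul_apply, smul_eq_mul, wo y i hi, mul_zero]
    refine ⟨fun i => if i = j then v else u i, fun i => ?_, fun y i i' hi hi' => ?_,
      fun y i l hl => ?_⟩
    · dsimp only
      split_ifs
      exacts [vc, u1 i]
    · by_cases a : i = j <;> by_cases b : i' = j
      · simp only [a, b, if_true, v1]
      · have : i ≠ i' := fun c => b (c ▸ a)
        simp only [a, b, if_true, if_false]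
        rw [vo y i' (by omega), if_neg (a ▸ this)]
      · have : i ≠ i' := fun c => a (c ▸ b)
        simp only [a, b, if_true, if_false]
        rw [r.symm, vo y i (by omega)]
      · simp only [a, b, if_false]
        exact u2 y i i' (by omega) (by omega)
    · dsimp only
      split_ifs
      · have : l ≠ ⟨j, hj⟩ := fun c => by
          rw [c] at hl
          simp at hl
        simp only [v, PiLp.smul_apply, smul_eq_mul]
        rw [wl y l (by omega)]
        simp [e, this]
      · exact u3 y i l (by omega)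

/-- An orthonormal frame and its inverse. -/
theorem frame (r : Riem h) {k : ℕ} (s : ContDiff ℝ k h) :
    ∃ R S : E n → E n →L[ℝ] E n, ContDiff ℝ k R ∧ ContDiff ℝ k S ∧
      (∀ y a, S y (R y a) = a) ∧ (∀ y u, R y (S y u) = u) ∧
      ∀ y a b, h y (R y a) (R y b) = ⟪a, b⟫ := by
  obtain ⟨u, u1, u2, -⟩ := step r s n le_rfl
  have uo : ∀ y (i j : Fin n), h y (u i y) (u j y) = if i = j then 1 else 0 := fun y i j => by
    rw [u2 y i j i.2 j.2]
    simp only [Fin.val_inj]
  let R : E n → E n →L[ℝ] E n := fun y =>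
    ∑ i : Fin n, (EuclideanSpace.proj i : E n →L[ℝ] ℝ).smulRight (u i y)
  let S : E n → E n →L[ℝ] E n := fun y =>
    ∑ i : Fin n, (h y (u i y)).smulRight (EuclideanSpace.single i 1)
  have hR : ∀ y a, R y a = ∑ i : Fin n, a i • u i y := fun y a => by simp [R]
  have hS : ∀ y x, S y x = ∑ i : Fin n, h y (u i y) x • EuclideanSpace.single i 1 :=
    fun y x => by simp [S]
  have SR : ∀ y a, S y (R y a) = a := fun y a => by
    rw [hS, hR]
    ext j
    simp [uo, Pi.single_apply]
  refine ⟨R, S, ?_, ?_, SR, fun y x => ?_, fun y a b => ?_⟩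
  · exact ContDiff.sum fun i _ => contDiff_const.smulRight (u1 i)
  · exact ContDiff.sum fun i _ => (s.clm_apply (u1 i)).smulRight contDiff_const
  · have h1 : (S y : E n →ₗ[ℝ] E n) * (R y : E n →ₗ[ℝ] E n) = 1 := LinearMap.ext (SR y)
    exact LinearMap.congr_fun (mul_eq_one_comm.1 h1) x
  · rw [hR, hR]
    simp [uo, PiLp.inner_apply]

end Pool.Agent.MP_3ee8cb_gt.GS
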